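import Pool.Agent.N684.BK.Low
import Pool.Agent.N769.BK.DIM
import Pool.Agent.N769.BK.MULSUM
import Pool.Agent.N861.BK.BEZ
import Pool.Agent.N415.BK.TOP

/-!
# The Bezout inequality for a finite set of common zeros

The number of the common zeros of finitely many polynomials of degree at most `M` in `N` variables
is at most `M ^ N` if it is finite.
-/

set_option autoImplicit false

open MvPolynomial Pool.Agent.N684.BK
open scoped ENNReal

namespace Run7.h53.BZ

variable {F : Type} [Field F] {N : ℕ}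

/-- the weights -/
def w1 (N : ℕ) : Fin N → ℕ := fun _ => 1

theorem mem_PW_of_totalDegree {f : MvPolynomial (Fin N) F} {M : ℕ} (h : f.totalDegree ≤ M) :
    f ∈ PW F (w1 N) M := by
  unfold PW
  rw [mem_restrictSupport_iff]
  intro m hm
  have h1 := MvPolynomial.le_totalDegree (Finset.mem_coe.1 hm)
  change wd (w1 N) m ≤ M
  refine le_trans ?_ (h1.trans h)
  unfold wd w1
  rw [Finsupp.sum_fintype _ _ (fun _ => rfl)]
  simp

theorem ker_inj {y y' : Fin N → F} (h : RingHom.ker (eval y) = RingHom.ker (eval y')) : y = y' := by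
  funext i
  have h1 : (X i - C (y i) : MvPolynomial (Fin N) F) ∈ RingHom.ker (eval y) := by
    rw [RingHom.mem_ker]
    simp
  rw [h, RingHom.mem_ker] at h1
  simp only [map_sub, eval_X, eval_C] at h1
  exact (sub_eq_zero.1 h1).symm

/-- isolated common zeros of `L` on the variety of `P` -/
def Iso (P : Ideal (MvPolynomial (Fin N) F)) (L : List (MvPolynomial (Fin N) F))
    (y : Fin N → F) : Prop :=
  P ≤ RingHom.ker (eval y) ∧ (∀ f ∈ L, f ∈ RingHom.ker (eval y)) ∧
    ∀ Q : Ideal (MvPolynomial (Fin N) F), Q.IsPrime → P ≤ Q → (∀ f ∈ L, f ∈ Q) →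
      Q ≤ RingHom.ker (eval y) → Q = RingHom.ker (eval y)

theorem main {M : ℕ} (hM : 1 ≤ M) : ∀ (L : List (MvPolynomial (Fin N) F)),
    (∀ f ∈ L, f ∈ PW F (w1 N) M) → ∀ P : Ideal (MvPolynomial (Fin N) F), P.IsPrime →
    ∀ T : Finset (Fin N → F), (∀ y ∈ T, Iso P L y) →
      (T.card : ℝ≥0∞) ≤ (M : ℝ≥0∞) ^ dimQ P * Deg (w1 N) (dimQ P) P := by
  classical
  have hM' : (1 : ℝ≥0∞) ≤ (M : ℝ≥0∞) := by exact_mod_cast hM
  intro L
  induction L with
  | nil =>
    intro _ P hP T hT
    have h1 : T.card ≤ 1 := by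
      rw [Finset.card_le_one]
      intro a ha b hb
      have h2 := (hT a ha).2.2 P hP le_rfl (by simp) (hT a ha).1
      have h3 := (hT b hb).2.2 P hP le_rfl (by simp) (hT b hb).1
      exact ker_inj (h2.symm.trans h3)
    have h4 := Pool.Agent.N684.BK.LOW F N 1 (w1 N) (fun _ => ⟨le_rfl, le_rfl⟩) P hP
    rw [Nat.cast_one, one_pow, one_mul] at h4
    calc (T.card : ℝ≥0∞) ≤ 1 := by exact_mod_cast h1
      _ = 1 * 1 := (one_mul 1).symm
      _ ≤ (M : ℝ≥0∞) ^ dimQ P * Deg (w1 N) (dimQ P) P :=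
        mul_le_mul' (one_le_pow₀ hM') h4
  | cons f L ih =>
    intro hL P hP T hT
    have hf := hL f (List.mem_cons_self ..)
    have hL' : ∀ g ∈ L, g ∈ PW F (w1 N) M := fun g hg => hL g (List.mem_cons_of_mem _ hg)
    by_cases hfP : f ∈ P
    · apply ih hL' P hP T
      intro y hy
      obtain ⟨h1, h2, h3⟩ := hT y hy
      refine ⟨h1, fun g hg => h2 g (List.mem_cons_of_mem _ hg), fun Q hQ hPQ hLQ hQy => ?_⟩
      refine h3 Q hQ hPQ (fun g hg => ?_) hQy
      rcases List.mem_cons.1 hg with rfl | hg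
      · exact hPQ hfP
      · exact hLQ g hg
    · have hfin : (P ⊔ Ideal.span {f}).minimalPrimes.Finite :=
        Ideal.finite_minimalPrimes_of_isNoetherianRing _ _
      set s := hfin.toFinset with hs
      have hmem : ∀ Q, Q ∈ s ↔ Q ∈ (P ⊔ Ideal.span {f}).minimalPrimes := fun Q => by
        rw [hs, Set.Finite.mem_toFinset]
      have hQprime : ∀ Q ∈ s, Q.IsPrime := fun Q hQ => ((hmem Q).1 hQ).1.1
      have hQP : ∀ Q ∈ s, P ≤ Q := fun Q hQ => le_sup_left.trans ((hmem Q).1 hQ).1.2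
      have hQf : ∀ Q ∈ s, f ∈ Q := fun Q hQ =>
        ((hmem Q).1 hQ).1.2 (Ideal.mem_sup_right (Ideal.mem_span_singleton_self f))
      have hcov : T ⊆ s.biUnion fun Q => T.filter fun y => Q ≤ RingHom.ker (eval y) := by
        intro y hy
        obtain ⟨h1, h2, h3⟩ := hT y hy
        have h4 : P ⊔ Ideal.span {f} ≤ RingHom.ker (eval y) := by
          refine sup_le h1 ?_
          rw [Ideal.span_singleton_le_iff_mem]
          exact h2 f (List.mem_cons_self ..)
        have : (RingHom.ker (eval y)).IsPrime := RingHom.ker_isPrime _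
        obtain ⟨Q, hQ, hQy⟩ := Ideal.exists_minimalPrimes_le h4
        rw [Finset.mem_biUnion]
        exact ⟨Q, (hmem Q).2 hQ, Finset.mem_filter.2 ⟨hy, hQy⟩⟩
      have hdim : ∀ Q ∈ s, dimQ Q + 1 = dimQ P := fun Q hQ =>
        Pool.Agent.N769.BK.DIM.DIM F N P Q f hP hfP ((hmem Q).1 hQ)
      have h5 : ∀ Q ∈ s, ((T.filter fun y => Q ≤ RingHom.ker (eval y)).card : ℝ≥0∞) ≤
          (M : ℝ≥0∞) ^ (dimQ P - 1) * Deg (w1 N) (dimQ P - 1) Q := by
        intro Q hQ
        have h6 := ih hL' Q (hQprime Q hQ) (T.filter fun y => Q ≤ RingHom.ker (eval y)) (by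
          intro y hy
          rw [Finset.mem_filter] at hy
          obtain ⟨h1, h2, h3⟩ := hT y hy.1
          refine ⟨hy.2, fun g hg => h2 g (List.mem_cons_of_mem _ hg), fun Q' hQ' h7 h8 h9 => ?_⟩
          refine h3 Q' hQ' ((hQP Q hQ).trans h7) (fun g hg => ?_) h9
          rcases List.mem_cons.1 hg with rfl | hg
          · exact h7 (hQf Q hQ)
          · exact h8 g hg)
        have h7 : dimQ Q = dimQ P - 1 := by
          have := hdim Q hQ
          omega
        rwa [h7] at h6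
      have h8 : (T.card : ℝ≥0∞) ≤ ∑ Q ∈ s, ((T.filter fun y => Q ≤ RingHom.ker (eval y)).card :
          ℝ≥0∞) := by
        have h9 := (Finset.card_le_card hcov).trans Finset.card_biUnion_le
        exact_mod_cast h9
      rcases s.eq_empty_or_nonempty with hse | ⟨Q0, hQ0⟩
      · rw [hse, Finset.sum_empty] at h8
        exact h8.trans zero_le
      · have h10 : dimQ P - 1 + 1 = dimQ P := by
          have := hdim Q0 hQ0
          omega
        have h11 := Pool.Agent.N861.BK.BEZ.BEZ Pool.Agent.N769.BK.MULSUM.MUL Pool.Agent.N769.BK.MULSUM.SUM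
          F N (w1 N) (fun _ => le_rfl) (dimQ P - 1) M P f s hP hfP hf hM
          (fun Q hQ => ⟨hQprime Q hQ, hQP Q hQ, hQf Q hQ⟩) (by
            intro Q hQ Q' hQ' hle
            have h12 := ((hmem Q').1 hQ').2 ((hmem Q).1 hQ).1 hle
            exact le_antisymm hle h12)
        rw [h10] at h11
        calc (T.card : ℝ≥0∞) ≤ _ := h8
          _ ≤ ∑ Q ∈ s, (M : ℝ≥0∞) ^ (dimQ P - 1) * Deg (w1 N) (dimQ P - 1) Q :=
            Finset.sum_le_sum h5
          _ = (M : ℝ≥0∞) ^ (dimQ P - 1) * ∑ Q ∈ s, Deg (w1 N) (dimQ P - 1) Q := by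
            rw [Finset.mul_sum]
          _ ≤ (M : ℝ≥0∞) ^ (dimQ P - 1) * ((M : ℝ≥0∞) * Deg (w1 N) (dimQ P) P) :=
            mul_le_mul' le_rfl h11
          _ = (M : ℝ≥0∞) ^ dimQ P * Deg (w1 N) (dimQ P) P := by
            rw [← mul_assoc, ← pow_succ, h10]

/-- over an algebraically closed field a prime with finitely many zeros is the ideal of a point -/
theorem prime_of_finite [IsAlgClosed F] {Z : Set (Fin N → F)} (hfin : Z.Finite)
    (Q : Ideal (MvPolynomial (Fin N) F)) (hQ : Q.IsPrime)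
    (hQZ : ∀ y : Fin N → F, (∀ f ∈ Q, eval y f = 0) → y ∈ Z) (y : Fin N → F)
    (hy : Q ≤ RingHom.ker (eval y)) : Q = RingHom.ker (eval y) := by
  classical
  set V : Finset (Fin N → F) := hfin.toFinset.filter fun z => ∀ f ∈ Q, eval z f = 0 with hV
  have h1 : V.inf (fun z => RingHom.ker (eval z)) ≤ Q := by
    intro f hf
    rw [← MvPolynomial.IsPrime.vanishingIdeal_zeroLocus (K := F) Q]
    rw [MvPolynomial.mem_vanishingIdeal_iff]
    intro z hz
    rw [MvPolynomial.mem_zeroLocus_iff] at hz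
    have h2 : z ∈ V := by
      rw [hV, Finset.mem_filter, Set.Finite.mem_toFinset]
      have h3 : ∀ f ∈ Q, eval z f = 0 := fun g hg => by
        have := hz g hg
        rwa [MvPolynomial.aeval_eq_eval] at this
      exact ⟨hQZ z h3, h3⟩
    have h4 : f ∈ RingHom.ker (eval z) := (Finset.inf_le (f := fun z => RingHom.ker (eval z)) h2) hf
    rw [MvPolynomial.aeval_eq_eval]
    exact h4
  have h5 := (Ideal.IsPrime.inf_le' hQ).1 h1
  obtain ⟨z, hz, hzQ⟩ := h5
  have hzy : RingHom.ker (eval z) ≤ RingHom.ker (eval y) := hzQ.trans hy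
  have hzy' : z = y := by
    funext i
    have h6 : (X i - C (z i) : MvPolynomial (Fin N) F) ∈ RingHom.ker (eval z) := by
      rw [RingHom.mem_ker]
      simp
    have h7 := hzy h6
    rw [RingHom.mem_ker] at h7
    simp only [map_sub, eval_X, eval_C] at h7
    exact (sub_eq_zero.1 h7).symm
  rw [hzy'] at hzQ
  exact le_antisymm hy hzQ

/-- **The Bezout inequality for finite sets of common zeros** over an algebraically closed field. -/
theorem card_le [IsAlgClosed F] {M : ℕ} (hM : 1 ≤ M) (L : List (MvPolynomial (Fin N) F))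
    (hL : ∀ f ∈ L, f.totalDegree ≤ M)
    (hfin : {y : Fin N → F | ∀ f ∈ L, eval y f = 0}.Finite) :
    {y : Fin N → F | ∀ f ∈ L, eval y f = 0}.ncard ≤ M ^ N := by
  classical
  set Z := {y : Fin N → F | ∀ f ∈ L, eval y f = 0} with hZ
  have h0 := main hM L (fun f hf => mem_PW_of_totalDegree (hL f hf)) ⊥ Ideal.isPrime_bot
    hfin.toFinset (by
      intro y hy
      rw [Set.Finite.mem_toFinset] at hy
      refine ⟨bot_le, fun f hf => by rw [RingHom.mem_ker]; exact hy f hf, ?_⟩
      intro Q hQ _ hLQ hQy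
      exact prime_of_finite hfin Q hQ (fun z hz f hf => hz f (hLQ f hf)) y hQy)
  obtain ⟨h1, h2⟩ := Pool.Agent.N415.BK.TOP.TOP F N (w1 N) (fun _ => le_rfl)
  rw [h1] at h0
  have h3 : Deg (w1 N) N (⊥ : Ideal (MvPolynomial (Fin N) F)) ≤ 1 := by
    simpa [w1] using h2
  have h4 : (hfin.toFinset.card : ℝ≥0∞) ≤ (M : ℝ≥0∞) ^ N :=
    h0.trans ((mul_le_mul' le_rfl h3).trans_eq (mul_one _))
  rw [Set.ncard_eq_toFinset_card Z hfin]
  exact_mod_cast h4

end Run7.h53.BZ
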