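import Pool.Agent.Run7.h53.BZ.Bez
import Pool.Agent.Y387.SF.Class

/-!
# The number of normalized solutions of the Weyl-Heisenberg equations
-/

set_option autoImplicit false

open MvPolynomial Pool.Agent.Y387.SF

namespace Run7.h53.BZ

variable {p : ℕ} [hp : Fact p.Prime]

/-- the solutions with `x 0 = 1` -/
def Z (χ : AddChar (ZMod p) ℂ) : Set ((ZMod p → ℂ) × (ZMod p → ℂ)) :=
  {s | s.1 0 = 1 ∧ IsSol χ s.1 s.2}

theorem Z_finite (hp5 : 5 ≤ p) {χ : AddChar (ZMod p) ℂ} (hχ : χ ≠ 1) : (Z χ).Finite := by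
  have h1 := finite_solutions hp5 hχ
  apply Set.Finite.of_finite_image (f := fun s : (ZMod p → ℂ) × (ZMod p → ℂ) =>
    fun i j => s.1 i * s.2 j) (h1.subset ?_) ?_
  · rintro m ⟨s, hs, rfl⟩
    exact ⟨s.1, s.2, hs.2, rfl⟩
  · rintro ⟨x, y⟩ ⟨hx0, hx⟩ ⟨x', y'⟩ ⟨hx0', hx'⟩ h
    simp only at hx0 hx hx0' hx' h
    have hm : ∀ i j, x i * y j = x' i * y' j := fun i j => congrFun (congrFun h i) j
    have hy : y = y' := by
      funext j
      have := hm 0 j
      rwa [hx0, hx0', one_mul, one_mul] at this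
    have hy0 : ∃ j, y j ≠ 0 := by
      by_contra hcon
      push Not at hcon
      have := hx.one
      simp [hcon] at this
    obtain ⟨j, hj⟩ := hy0
    have hxx : x = x' := by
      funext i
      have := hm i j
      rw [← hy] at this
      exact mul_right_cancel₀ hj this
    rw [hy, hxx]

/-- the variables -/
noncomputable def eq2 (p : ℕ) [Fact p.Prime] : ZMod p ⊕ ZMod p ≃ Fin (2 * p) :=
  Fintype.equivOfCardEq (by rw [Fintype.card_sum, ZMod.card, Fintype.card_fin, two_mul])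

/-- the variables `x_j` -/
noncomputable def xv (j : ZMod p) : MvPolynomial (Fin (2 * p)) ℂ := X (eq2 p (Sum.inl j))

/-- the variables `y_j` -/
noncomputable def yv (j : ZMod p) : MvPolynomial (Fin (2 * p)) ℂ := X (eq2 p (Sum.inr j))

/-- the equations with index `(a, b)` -/
noncomputable def fab (χ : AddChar (ZMod p) ℂ) (r : ZMod p × ZMod p) :
    MvPolynomial (Fin (2 * p)) ℂ :=
  (∑ j, xv j * yv (j + r.1) * C (χ (r.2 * j))) * (∑ j, xv (j + r.1) * yv j * C (χ (-(r.2 * j)))) -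
    C (((p : ℂ) + 1)⁻¹)

/-- the list of all equations -/
noncomputable def eqs (χ : AddChar (ZMod p) ℂ) : List (MvPolynomial (Fin (2 * p)) ℂ) :=
  (xv 0 - 1) :: (∑ j, xv j * yv j - 1) ::
    ((Finset.univ.filter fun r : ZMod p × ZMod p => r ≠ 0).toList.map (fab χ))

theorem deg_var (i : Fin (2 * p)) : (X i : MvPolynomial (Fin (2 * p)) ℂ).totalDegree ≤ 1 := by
  rw [totalDegree_X]

theorem deg_quad (u v : ZMod p → MvPolynomial (Fin (2 * p)) ℂ) (c : ZMod p → ℂ)
    (hu : ∀ j, (u j).totalDegree ≤ 1) (hv : ∀ j, (v j).totalDegree ≤ 1) :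
    (∑ j, u j * v j * C (c j)).totalDegree ≤ 2 := by
  apply totalDegree_finsetSum_le
  intro j _
  refine (totalDegree_mul _ _).trans ?_
  have h1 := totalDegree_mul (u j) (v j)
  have h2 := hu j
  have h3 := hv j
  rw [totalDegree_C]
  omega

theorem deg_eqs (χ : AddChar (ZMod p) ℂ) : ∀ f ∈ eqs χ, f.totalDegree ≤ 4 := by
  intro f hf
  unfold eqs at hf
  rcases List.mem_cons.1 hf with rfl | hf
  · refine (totalDegree_sub _ _).trans ?_
    have := deg_var (p := p) (eq2 p (Sum.inl 0))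
    rw [totalDegree_one]
    unfold xv
    omega
  rcases List.mem_cons.1 hf with rfl | hf
  · refine (totalDegree_sub _ _).trans ?_
    have h1 := deg_quad (p := p) xv yv (fun _ => 1) (fun j => deg_var _) (fun j => deg_var _)
    simp only [map_one, mul_one] at h1
    rw [totalDegree_one]
    omega
  · rw [List.mem_map] at hf
    obtain ⟨r, _, rfl⟩ := hf
    unfold fab
    refine (totalDegree_sub _ _).trans ?_
    rw [totalDegree_C]
    have h1 := deg_quad (p := p) xv (fun j => yv (j + r.1)) (fun j => χ (r.2 * j))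
      (fun j => deg_var _) (fun j => deg_var _)
    have h2 := deg_quad (p := p) (fun j => xv (j + r.1)) yv (fun j => χ (-(r.2 * j)))
      (fun j => deg_var _) (fun j => deg_var _)
    have h3 := totalDegree_mul (∑ j, xv j * yv (j + r.1) * C (χ (r.2 * j)))
      (∑ j, xv (j + r.1) * yv j * C (χ (-(r.2 * j))) : MvPolynomial (Fin (2 * p)) ℂ)
    omega

/-- the point with coordinates `x`, `y` -/
noncomputable def pt (s : (ZMod p → ℂ) × (ZMod p → ℂ)) : Fin (2 * p) → ℂ :=
  fun i => Sum.elim s.1 s.2 ((eq2 p).symm i)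

theorem pt_inl (s : (ZMod p → ℂ) × (ZMod p → ℂ)) (j : ZMod p) :
    pt s (eq2 p (Sum.inl j)) = s.1 j := by
  unfold pt
  rw [Equiv.symm_apply_apply, Sum.elim_inl]

theorem pt_inr (s : (ZMod p → ℂ) × (ZMod p → ℂ)) (j : ZMod p) :
    pt s (eq2 p (Sum.inr j)) = s.2 j := by
  unfold pt
  rw [Equiv.symm_apply_apply, Sum.elim_inr]

theorem pt_bij : Function.Bijective (pt : (ZMod p → ℂ) × (ZMod p → ℂ) → Fin (2 * p) → ℂ) := by
  constructor
  · rintro s t h
    refine Prod.ext (funext fun j => ?_) (funext fun j => ?_)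
    · rw [← pt_inl s, ← pt_inl t, h]
    · rw [← pt_inr s, ← pt_inr t, h]
  · intro z
    refine ⟨(fun j => z (eq2 p (Sum.inl j)), fun j => z (eq2 p (Sum.inr j))), ?_⟩
    funext i
    obtain ⟨u, rfl⟩ := (eq2 p).surjective i
    rcases u with j | j
    · rw [pt_inl]
    · rw [pt_inr]

theorem eval_eqs (χ : AddChar (ZMod p) ℂ) (s : (ZMod p → ℂ) × (ZMod p → ℂ)) :
    (∀ f ∈ eqs χ, eval (pt s) f = 0) ↔ s ∈ Z χ := by
  have h1 : eval (pt s) (xv 0 - 1) = s.1 0 - 1 := by
    unfold xv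
    rw [map_sub, eval_X, map_one, pt_inl]
  have h2 : eval (pt s) (∑ j, xv j * yv j - 1) = ∑ j, s.1 j * s.2 j - 1 := by
    unfold xv yv
    rw [map_sub, map_one, map_sum]
    simp only [map_mul, eval_X, pt_inl, pt_inr]
  have h3 : ∀ r : ZMod p × ZMod p, eval (pt s) (fab χ r) =
      cc χ s.1 s.2 r.1 r.2 * cd χ s.1 s.2 r.1 r.2 - ((p : ℂ) + 1)⁻¹ := by
    intro r
    unfold fab xv yv cc cd
    rw [map_sub, map_mul, map_sum, map_sum, eval_C]
    simp only [map_mul, eval_X, pt_inl, pt_inr, eval_C]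
  unfold eqs Z
  simp only [List.mem_cons, forall_eq_or_imp, h1, h2, List.mem_map, Finset.mem_toList,
    Finset.mem_filter, Finset.mem_univ, true_and, forall_exists_index, and_imp,
    forall_apply_eq_imp_iff₂, h3, sub_eq_zero, Set.mem_setOf_eq]
  constructor
  · rintro ⟨h4, h5, h6⟩
    refine ⟨h4, h5, fun a b hab => h6 (a, b) ?_⟩
    rintro h7
    rw [Prod.mk_eq_zero] at h7
    rcases hab with h8 | h8
    · exact h8 h7.1
    · exact h8 h7.2
  · rintro ⟨h4, h5⟩
    refine ⟨h4, h5.one, fun r hr => h5.mul r.1 r.2 ?_⟩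
    by_contra hcon
    push Not at hcon
    exact hr (Prod.ext hcon.1 hcon.2)

/-- **The number of the solutions with `x 0 = 1` is at most `16 ^ p`.** -/
theorem Z_card (hp5 : 5 ≤ p) {χ : AddChar (ZMod p) ℂ} (hχ : χ ≠ 1) : (Z χ).ncard ≤ 16 ^ p := by
  have h1 : {y : Fin (2 * p) → ℂ | ∀ f ∈ eqs χ, eval y f = 0} = pt '' Z χ := by
    ext y
    obtain ⟨s, rfl⟩ := pt_bij.2 y
    rw [Set.mem_setOf_eq, eval_eqs, pt_bij.1.mem_set_image]
  have h2 := card_le (M := 4) (by norm_num) (eqs χ) (deg_eqs χ)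
    (by rw [h1]; exact (Z_finite hp5 hχ).image _)
  rw [h1, Set.ncard_image_of_injective _ pt_bij.1, pow_mul] at h2
  exact h2

end Run7.h53.BZ
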