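import Pool.Agent.Run7.h53.BZ.Cnt

/-!
# The degree of the field generated by a normalized solution
-/

set_option autoImplicit false

open Pool.Agent.Y387.SF

namespace Run7.h53.BZ

variable {p : ℕ} [hp : Fact p.Prime]

theorem map_cd {K L : Type*} [Field K] [Field L] (c : K →+* L) (χ : AddChar (ZMod p) K)
    (x y : ZMod p → K) (a b : ZMod p) :
    c (cd χ x y a b) = cd (c.toMonoidHom.compAddChar χ) (fun j => c (x j)) (fun j => c (y j)) a b := by
  unfold cd
  rw [map_sum]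
  refine Finset.sum_congr rfl fun j _ => ?_
  rw [map_mul, map_mul]
  rfl

theorem isSol_map {K L : Type*} [Field K] [Field L] (c : K →+* L) (χ : AddChar (ZMod p) K)
    (x y : ZMod p → K) :
    IsSol (c.toMonoidHom.compAddChar χ) (fun j => c (x j)) (fun j => c (y j)) ↔ IsSol χ x y := by
  have h0 : c (((p : K) + 1)⁻¹) = ((p : L) + 1)⁻¹ := by
    rw [map_inv₀, map_add, map_natCast, map_one]
  constructor
  · intro h
    refine ⟨?_, fun a b hab => ?_⟩
    · apply c.injective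
      rw [map_sum, map_one, ← h.one]
      exact Finset.sum_congr rfl fun j _ => map_mul _ _ _
    · apply c.injective
      rw [map_mul, map_cc, map_cd, h.mul a b hab, h0]
  · intro h
    refine ⟨?_, fun a b hab => ?_⟩
    · rw [← map_one c, ← h.one, map_sum]
      exact Finset.sum_congr rfl fun j _ => (map_mul _ _ _).symm
    · rw [← map_cc, ← map_cd, ← map_mul, h.mul a b hab, h0]

theorem card_chars : Nat.card {χ : AddChar (ZMod p) ℂ // χ ≠ 1} = p - 1 := by
  classical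
  have h1 : Nat.card (AddChar (ZMod p) ℂ) = p := by
    rw [Nat.card_eq_fintype_card, AddChar.card_eq, ZMod.card]
  have h2 : Nat.card {χ : AddChar (ZMod p) ℂ // χ ≠ 1} =
      Nat.card (AddChar (ZMod p) ℂ) - 1 := by
    rw [Nat.card_eq_fintype_card, Nat.card_eq_fintype_card]
    exact Set.card_ne_eq _
  rw [h2, h1]

/-- the generators -/
def gens (χ : AddChar (ZMod p) ℂ) (s : (ZMod p → ℂ) × (ZMod p → ℂ)) : Set ℂ :=
  Set.range χ ∪ (Set.range s.1 ∪ Set.range s.2)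

theorem gens_alg (hp5 : 5 ≤ p) {χ : AddChar (ZMod p) ℂ} (hχ : χ ≠ 1)
    {s : (ZMod p → ℂ) × (ZMod p → ℂ)} (hs : s ∈ Z χ) : ∀ z ∈ gens χ s, IsIntegral ℚ z := by
  obtain ⟨h0, h1⟩ := hs
  have halg := algebraic hp5 hχ h1
  have hy : ∀ j, IsAlgebraic ℚ (s.2 j) := by
    intro j
    have := halg 0 j
    rwa [h0, one_mul] at this
  have hy0 : ∃ j, s.2 j ≠ 0 := by
    by_contra hcon
    push Not at hcon
    have := h1.one
    simp [hcon] at this
  obtain ⟨j0, hj0⟩ := hy0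
  rintro z (⟨a, rfl⟩ | ⟨i, rfl⟩ | ⟨j, rfl⟩)
  · exact (char_alg χ a).isIntegral
  · have h2 : s.1 i = s.1 i * s.2 j0 * (s.2 j0)⁻¹ := by
      rw [mul_assoc, mul_inv_cancel₀ hj0, mul_one]
    rw [h2]
    exact ((halg i j0).mul (hy j0).inv).isIntegral
  · exact (hy j).isIntegral

instance (χ : AddChar (ZMod p) ℂ) (s : (ZMod p → ℂ) × (ZMod p → ℂ)) : Finite (gens χ s) := by
  unfold gens
  exact Set.toFinite _

theorem finite_field (hp5 : 5 ≤ p) {χ : AddChar (ZMod p) ℂ} (hχ : χ ≠ 1)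
    {s : (ZMod p → ℂ) × (ZMod p → ℂ)} (hs : s ∈ Z χ) :
    FiniteDimensional ℚ (IntermediateField.adjoin ℚ (gens χ s)) :=
  IntermediateField.finiteDimensional_adjoin (gens_alg hp5 hχ hs)

/-- **The field generated by a normalized solution has degree at most `(p - 1) 16 ^ p`.** -/
theorem finrank_le (hp5 : 5 ≤ p) {χ : AddChar (ZMod p) ℂ} (hχ : χ ≠ 1)
    {s : (ZMod p → ℂ) × (ZMod p → ℂ)} (hs : s ∈ Z χ) :
    Module.finrank ℚ (IntermediateField.adjoin ℚ (gens χ s)) ≤ (p - 1) * 16 ^ p := by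
  classical
  have := finite_field hp5 hχ hs
  set L := IntermediateField.adjoin ℚ (gens χ s) with hL
  have hmem : ∀ z ∈ gens χ s, z ∈ L := fun z hz => IntermediateField.subset_adjoin _ _ hz
  have hχm : ∀ a, χ a ∈ L := fun a => hmem _ (Or.inl ⟨a, rfl⟩)
  have hxm : ∀ i, s.1 i ∈ L := fun i => hmem _ (Or.inr (Or.inl ⟨i, rfl⟩))
  have hym : ∀ j, s.2 j ∈ L := fun j => hmem _ (Or.inr (Or.inr ⟨j, rfl⟩))
  let χL : AddChar (ZMod p) L :=
    { toFun := fun a => ⟨χ a, hχm a⟩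
      map_zero_eq_one' := Subtype.ext (χ.map_zero_eq_one)
      map_add_eq_mul' := fun a b => Subtype.ext (χ.map_add_eq_mul a b) }
  let xL : ZMod p → L := fun i => ⟨s.1 i, hxm i⟩
  let yL : ZMod p → L := fun j => ⟨s.2 j, hym j⟩
  have hsolL : IsSol χL xL yL := by
    rw [← isSol_map (algebraMap L ℂ)]
    have h1 : (algebraMap L ℂ).toMonoidHom.compAddChar χL = χ := by
      ext a
      rfl
    rw [h1]
    exact hs.2
  have hχL : ∃ a, χL a ≠ 1 := by
    by_contra hcon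
    push Not at hcon
    apply hχ
    ext a
    exact congrArg (fun z : L => (z : ℂ)) (hcon a)
  -- the images
  let Φ : (L →ₐ[ℚ] ℂ) → Σ χ' : {χ' : AddChar (ZMod p) ℂ // χ' ≠ 1}, Z χ'.1 := fun τ =>
    ⟨⟨τ.toRingHom.toMonoidHom.compAddChar χL, by
      obtain ⟨a, ha⟩ := hχL
      intro h
      apply ha
      have h2 := congrArg (fun ψ : AddChar (ZMod p) ℂ => ψ a) h
      simp only [AddChar.one_apply] at h2
      have h3 : τ (χL a) = τ 1 := by rw [map_one]; exact h2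
      exact τ.toRingHom.injective h3⟩,
     ⟨(fun i => τ (xL i), fun j => τ (yL j)), by
      refine ⟨?_, ?_⟩
      · change τ (xL 0) = 1
        have : xL 0 = 1 := Subtype.ext hs.1
        rw [this, map_one]
      · exact (isSol_map τ.toRingHom χL xL yL).2 hsolL⟩⟩
  have hinj : Function.Injective Φ := by
    intro τ τ' h
    have h1 := congrArg (fun u => (u.1.1 : AddChar (ZMod p) ℂ)) h
    have h2 : (fun i => τ (xL i)) = fun i => τ' (xL i) :=
      congrArg (fun u : (Σ χ' : {χ' : AddChar (ZMod p) ℂ // χ' ≠ 1}, Z χ'.1) => u.2.1.1) h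
    have h3 : (fun j => τ (yL j)) = fun j => τ' (yL j) :=
      congrArg (fun u : (Σ χ' : {χ' : AddChar (ZMod p) ℂ // χ' ≠ 1}, Z χ'.1) => u.2.1.2) h
    apply IntermediateField.adjoin_algHom_ext
    rintro z (⟨a, rfl⟩ | ⟨i, rfl⟩ | ⟨j, rfl⟩)
    · exact congrArg (fun ψ : AddChar (ZMod p) ℂ => ψ a) h1
    · exact congrFun h2 i
    · exact congrFun h3 j
  have hfinZ : ∀ χ' : {χ' : AddChar (ZMod p) ℂ // χ' ≠ 1}, Finite (Z χ'.1) := fun χ' =>
    (Z_finite hp5 χ'.2).to_subtype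
  have h4 : Nat.card (L →ₐ[ℚ] ℂ) ≤ Nat.card (Σ χ' : {χ' : AddChar (ZMod p) ℂ // χ' ≠ 1}, Z χ'.1) :=
    Nat.card_le_card_of_injective Φ hinj
  have h5 : Nat.card (L →ₐ[ℚ] ℂ) = Module.finrank ℚ L :=
    AlgHom.natCard_of_splits _ _ _ (fun _ => IsAlgClosed.splits _)
  rw [← h5]
  refine h4.trans ?_
  have : Fintype {χ' : AddChar (ZMod p) ℂ // χ' ≠ 1} := Fintype.ofFinite _
  rw [Nat.card_sigma]
  calc ∑ χ' : {χ' : AddChar (ZMod p) ℂ // χ' ≠ 1}, Nat.card (Z χ'.1)
      ≤ ∑ χ' : {χ' : AddChar (ZMod p) ℂ // χ' ≠ 1}, 16 ^ p :=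
        Finset.sum_le_sum fun χ' _ => Z_card hp5 χ'.2
    _ = (p - 1) * 16 ^ p := by
        rw [Finset.sum_const, smul_eq_mul, Finset.card_univ, ← Nat.card_eq_fintype_card,
          card_chars]

end Run7.h53.BZ
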