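import Pool.Agent.Run7.h53.BZ.Norm

/-!
# The number of frames with a transitive symmetry group and the degree of their fields
-/

set_option autoImplicit false

open Pool.Agent.Y387.SF

namespace Run7.h53.BZ

variable {p : ℕ} [hp : Fact p.Prime]

/-- the frame `x` with the numbering `σ` has the normalized solution `s` -/
def RelS (χ : AddChar (ZMod p) ℂ) (x : Fin (p ^ 2) → EuclideanSpace ℂ (Fin p))
    (σ : Fin (p ^ 2) → ZMod p × ZMod p) (s : (ZMod p → ℂ) × (ZMod p → ℂ)) : Prop :=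
  Rel x (χ, (fun i j => s.1 i * s.2 j), σ)

theorem exists_relS {χ : AddChar (ZMod p) ℂ} (hχ : χ ≠ 1)
    {x : Fin (p ^ 2) → EuclideanSpace ℂ (Fin p)} (h : IsEtf p x)
    (htr : ∀ i j, ∃ (U : EuclideanSpace ℂ (Fin p) ≃ₗᵢ[ℂ] EuclideanSpace ℂ (Fin p))
      (π : Equiv.Perm (Fin (p ^ 2))), Ind x U π ∧ π i = j) :
    ∃ s ∈ Z χ, ∃ σ : Fin (p ^ 2) → ZMod p × ZMod p, Function.Bijective σ ∧ RelS χ x σ s := by
  obtain ⟨ψ, T, σ, h0, hsol, hσ, hT⟩ := norm_fid hχ h (Fintype.card_fin _)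
    (by rw [finrank_euclideanSpace_fin]) htr
  refine ⟨nz ψ, nz_mem h0 hsol, σ, hσ, ψ, T, hsol, ?_, hT⟩
  funext i j
  exact (nz_mul h0 i j).symm

theorem count (hp5 : 5 ≤ p) : ∃ S : Set (Fin (p ^ 2) → EuclideanSpace ℂ (Fin p)),
    S.Finite ∧ S.ncard ≤ 16 ^ p ∧ (∀ y ∈ S, IsEtf p y) ∧
    ∀ x : Fin (p ^ 2) → EuclideanSpace ℂ (Fin p), IsEtf p x →
      (∀ i j, ∃ (U : EuclideanSpace ℂ (Fin p) ≃ₗᵢ[ℂ] EuclideanSpace ℂ (Fin p))
        (π : Equiv.Perm (Fin (p ^ 2))), Ind x U π ∧ π i = j) →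
      ∃ y ∈ S, ∃ (U : EuclideanSpace ℂ (Fin p) ≃ₗᵢ[ℂ] EuclideanSpace ℂ (Fin p))
        (π : Equiv.Perm (Fin (p ^ 2))), ∀ k, ∃ c : ℂ, ‖c‖ = 1 ∧ U (x k) = c • y (π k) := by
  classical
  obtain ⟨⟨χ, hχ⟩⟩ : Nonempty {χ : AddChar (ZMod p) ℂ // χ ≠ 1} := by
    rw [← not_isEmpty_iff]
    intro hem
    have h1 := card_chars (p := p)
    rw [Nat.card_of_isEmpty] at h1
    omega
  set Y : (ZMod p → ℂ) × (ZMod p → ℂ) → (Fin (p ^ 2) → EuclideanSpace ℂ (Fin p)) := fun s =>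
    if h : ∃ y : Fin (p ^ 2) → EuclideanSpace ℂ (Fin p), IsEtf p y ∧
      ∃ σ : Fin (p ^ 2) → ZMod p × ZMod p, Function.Bijective σ ∧ RelS χ y σ s
      then h.choose else 0 with hY
  set Z' : Set ((ZMod p → ℂ) × (ZMod p → ℂ)) := {s | s ∈ Z χ ∧
    ∃ y : Fin (p ^ 2) → EuclideanSpace ℂ (Fin p), IsEtf p y ∧
      ∃ σ : Fin (p ^ 2) → ZMod p × ZMod p, Function.Bijective σ ∧ RelS χ y σ s} with hZ'
  have hsub : Z' ⊆ Z χ := fun s hs => hs.1
  have hfin : Z'.Finite := (Z_finite hp5 hχ).subset hsub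
  have hYs : ∀ s ∈ Z', IsEtf p (Y s) ∧ ∃ σ : Fin (p ^ 2) → ZMod p × ZMod p,
      Function.Bijective σ ∧ RelS χ (Y s) σ s := by
    intro s hs
    simp only [hY, dif_pos hs.2]
    exact hs.2.choose_spec
  refine ⟨Y '' Z', hfin.image _, ?_, ?_, ?_⟩
  · exact (Set.ncard_image_le hfin).trans
      ((Set.ncard_le_ncard hsub (Z_finite hp5 hχ)).trans (Z_card hp5 hχ))
  · rintro _ ⟨s, hs, rfl⟩
    exact (hYs s hs).1
  · intro x hx htr
    obtain ⟨s, hs, σ, hσ, hrel⟩ := exists_relS hχ hx htr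
    have hs' : s ∈ Z' := ⟨hs, x, hx, σ, hσ, hrel⟩
    obtain ⟨h1, σ', hσ', hrel'⟩ := hYs s hs'
    refine ⟨Y s, ⟨s, hs', rfl⟩, ?_⟩
    set π : Equiv.Perm (Fin (p ^ 2)) :=
      (Equiv.ofBijective σ hσ).trans (Equiv.ofBijective σ' hσ').symm with hπ
    have hπσ : ∀ k, σ' (π k) = σ k := by
      intro k
      rw [hπ, Equiv.trans_apply]
      exact (Equiv.ofBijective σ' hσ').apply_symm_apply _
    have hrel2 : Rel (fun k => Y s (π k)) (χ, (fun i j => s.1 i * s.2 j), σ) := by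
      obtain ⟨ψ, T, h2, h3, h4⟩ := hrel'
      refine ⟨ψ, T, h2, h3, fun k => ?_⟩
      obtain ⟨c, hc, hc'⟩ := h4 (π k)
      refine ⟨c, hc, ?_⟩
      simp only at hc' ⊢
      rw [hc', hπσ]
    obtain ⟨U, hU⟩ := rel_equiv hrel hrel2
    exact ⟨U, π, hU⟩

/-- the triple products -/
def triples (x : Fin (p ^ 2) → EuclideanSpace ℂ (Fin p)) : Set ℂ :=
  {z | ∃ i j k, z = inner ℂ (x i) (x j) * inner ℂ (x j) (x k) * inner ℂ (x k) (x i)}

theorem degree (hp5 : 5 ≤ p) {x : Fin (p ^ 2) → EuclideanSpace ℂ (Fin p)} (hx : IsEtf p x)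
    (htr : ∀ i j, ∃ (U : EuclideanSpace ℂ (Fin p) ≃ₗᵢ[ℂ] EuclideanSpace ℂ (Fin p))
      (π : Equiv.Perm (Fin (p ^ 2))), Ind x U π ∧ π i = j) :
    FiniteDimensional ℚ (IntermediateField.adjoin ℚ (triples x)) ∧
    Module.finrank ℚ (IntermediateField.adjoin ℚ (triples x)) ≤ (p - 1) * 16 ^ p := by
  obtain ⟨⟨χ, hχ⟩⟩ : Nonempty {χ : AddChar (ZMod p) ℂ // χ ≠ 1} := by
    rw [← not_isEmpty_iff]
    intro hem
    have h1 := card_chars (p := p)
    rw [Nat.card_of_isEmpty] at h1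
    omega
  obtain ⟨s, hs, σ, hσ, ψ, T, hsol, hmul, hT⟩ := exists_relS hχ hx htr
  have hfin := finite_field hp5 hχ hs
  set L := IntermediateField.adjoin ℚ (gens χ s) with hL
  have hmem : ∀ z ∈ gens χ s, z ∈ L := fun z hz => IntermediateField.subset_adjoin _ _ hz
  have hχm : ∀ a, χ a ∈ L := fun a => hmem _ (Or.inl ⟨a, rfl⟩)
  have hxm : ∀ i, s.1 i ∈ L := fun i => hmem _ (Or.inr (Or.inl ⟨i, rfl⟩))
  have hym : ∀ j, s.2 j ∈ L := fun j => hmem _ (Or.inr (Or.inr ⟨j, rfl⟩))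
  have hmm : ∀ i j, ψ i * cj ψ j ∈ L := by
    intro i j
    have h1 : s.1 i * s.2 j = ψ i * cj ψ j := congrFun (congrFun hmul i) j
    rw [← h1]
    exact L.mul_mem (hxm i) (hym j)
  have hcc : ∀ a b, cc χ ψ (cj ψ) a b ∈ L := by
    intro a b
    unfold cc
    exact L.sum_mem fun j _ => L.mul_mem (hmm _ _) (hχm _)
  have hin : ∀ u v : ZMod p × ZMod p,
      inner ℂ (Dv χ ψ u.1 u.2) (Dv χ ψ v.1 v.2) ∈ L := by
    intro u v
    rw [inner_Dv]
    exact L.mul_mem (hχm _) (hcc _ _)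
  have htri : triples x ⊆ L := by
    rintro z ⟨i, j, k, rfl⟩
    obtain ⟨a, ha, ha'⟩ := hT i
    obtain ⟨b, hb, hb'⟩ := hT j
    obtain ⟨c, hc, hc'⟩ := hT k
    simp only at ha' hb' hc'
    have hone : ∀ w : ℂ, ‖w‖ = 1 → w * (starRingEnd ℂ) w = 1 := by
      intro w hw
      rw [Complex.mul_conj, Complex.normSq_eq_norm_sq, hw]
      simp
    have h1 : inner ℂ (x i) (x j) * inner ℂ (x j) (x k) * inner ℂ (x k) (x i) =
        inner ℂ (Dv χ ψ (σ i).1 (σ i).2) (Dv χ ψ (σ j).1 (σ j).2) *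
        inner ℂ (Dv χ ψ (σ j).1 (σ j).2) (Dv χ ψ (σ k).1 (σ k).2) *
        inner ℂ (Dv χ ψ (σ k).1 (σ k).2) (Dv χ ψ (σ i).1 (σ i).2) := by
      rw [← T.inner_map_map (x i) (x j), ← T.inner_map_map (x j) (x k),
        ← T.inner_map_map (x k) (x i), ha', hb', hc']
      simp only [inner_smul_left, inner_smul_right]
      have e1 := hone a ha
      have e2 := hone b hb
      have e3 := hone c hc
      set A := inner ℂ (Dv χ ψ (σ i).1 (σ i).2) (Dv χ ψ (σ j).1 (σ j).2)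
      set B := inner ℂ (Dv χ ψ (σ j).1 (σ j).2) (Dv χ ψ (σ k).1 (σ k).2)
      set C := inner ℂ (Dv χ ψ (σ k).1 (σ k).2) (Dv χ ψ (σ i).1 (σ i).2)
      calc _ = (a * (starRingEnd ℂ) a) * (b * (starRingEnd ℂ) b) * (c * (starRingEnd ℂ) c) *
            (A * B * C) := by ring
        _ = A * B * C := by rw [e1, e2, e3]; ring
    rw [h1]
    exact L.mul_mem (L.mul_mem (hin _ _) (hin _ _)) (hin _ _)
  have hle : IntermediateField.adjoin ℚ (triples x) ≤ L := by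
    rw [IntermediateField.adjoin_le_iff]
    exact htri
  refine ⟨?_, ?_⟩
  · exact FiniteDimensional.of_injective
      (IntermediateField.inclusion hle).toLinearMap (IntermediateField.inclusion hle).injective
  · exact (IntermediateField.finrank_le_of_le_right hle).trans (finrank_le hp5 hχ hs)

end Run7.h53.BZ
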