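import Pool.Agent.Run7.h53.BZ.Deg

/-!
# Normalization of frames with a transitive symmetry group: fixed character, fiducial vector with
nonzero coordinate `0`
-/

set_option autoImplicit false

open Pool.Agent.Y387.SF

namespace Run7.h53.BZ

variable {p : ℕ} [hp : Fact p.Prime]

theorem exists_mulShift {χ0 : AddChar (ZMod p) ℂ} (hχ0 : χ0 ≠ 1) (χ : AddChar (ZMod p) ℂ) :
    ∃ a : ZMod p, ∀ j, χ j = χ0 (a * j) := by
  classical
  have hinj : Function.Injective (fun a : ZMod p => AddChar.mulShift χ0 a) := by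
    intro a b h
    have h1 := congrArg (fun ψ : AddChar (ZMod p) ℂ => ψ 1) h
    simp only [AddChar.mulShift_apply, mul_one] at h1
    exact char_injective hχ0 h1
  have hbij : Function.Bijective (fun a : ZMod p => AddChar.mulShift χ0 a) := by
    rw [Fintype.bijective_iff_injective_and_card]
    exact ⟨hinj, AddChar.card_eq.symm⟩
  obtain ⟨a, ha⟩ := hbij.2 χ
  refine ⟨a, fun j => ?_⟩
  rw [← ha, AddChar.mulShift_apply]

theorem cc_dil {χ χ0 : AddChar (ZMod p) ℂ} {a : ZMod p} (ha : a ≠ 0) (hχ : ∀ j, χ j = χ0 (a * j))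
    (ψ φ : ZMod p → ℂ) (u v : ZMod p) :
    cc χ0 (fun j => ψ (a⁻¹ * j)) (fun j => φ (a⁻¹ * j)) u v = cc χ ψ φ (a⁻¹ * u) v := by
  unfold cc
  symm
  refine Fintype.sum_equiv (Equiv.mulLeft₀ a ha) _ _ fun j => ?_
  change _ = ψ (a⁻¹ * (a * j)) * φ (a⁻¹ * (a * j + u)) * χ0 (v * (a * j))
  rw [hχ, mul_add, inv_mul_cancel_left₀ ha]
  congr 2
  ring

theorem cd_dil {χ χ0 : AddChar (ZMod p) ℂ} {a : ZMod p} (ha : a ≠ 0) (hχ : ∀ j, χ j = χ0 (a * j))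
    (ψ φ : ZMod p → ℂ) (u v : ZMod p) :
    cd χ0 (fun j => ψ (a⁻¹ * j)) (fun j => φ (a⁻¹ * j)) u v = cd χ ψ φ (a⁻¹ * u) v := by
  unfold cd
  symm
  refine Fintype.sum_equiv (Equiv.mulLeft₀ a ha) _ _ fun j => ?_
  change _ = ψ (a⁻¹ * (a * j + u)) * φ (a⁻¹ * (a * j)) * χ0 (-(v * (a * j)))
  rw [hχ, mul_add, inv_mul_cancel_left₀ ha]
  congr 2
  ring

theorem sol_dil {χ χ0 : AddChar (ZMod p) ℂ} {a : ZMod p} (ha : a ≠ 0) (hχ : ∀ j, χ j = χ0 (a * j))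
    {ψ φ : ZMod p → ℂ} (h : IsSol χ ψ φ) :
    IsSol χ0 (fun j => ψ (a⁻¹ * j)) (fun j => φ (a⁻¹ * j)) := by
  refine ⟨?_, fun u v huv => ?_⟩
  · rw [← h.one]
    exact Fintype.sum_equiv (Equiv.mulLeft₀ a⁻¹ (inv_ne_zero ha)) _ _ fun j => rfl
  · rw [cc_dil ha hχ, cd_dil ha hχ]
    apply h.mul
    rcases huv with h1 | h1
    · exact Or.inl (mul_ne_zero (inv_ne_zero ha) h1)
    · exact Or.inr h1

theorem cc_shift (χ : AddChar (ZMod p) ℂ) (ψ φ : ZMod p → ℂ) (i u v : ZMod p) :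
    cc χ (fun j => ψ (j + i)) (fun j => φ (j + i)) u v = χ (-(v * i)) * cc χ ψ φ u v := by
  unfold cc
  rw [Finset.mul_sum]
  refine Fintype.sum_equiv (Equiv.addRight i) _ _ fun j => ?_
  simp only [Equiv.coe_addRight]
  have h1 : χ (v * j) = χ (-(v * i)) * χ (v * (j + i)) := by
    rw [← AddChar.map_add_eq_mul]
    congr 1
    ring
  rw [h1, show j + u + i = j + i + u by ring]
  ring

theorem cd_shift (χ : AddChar (ZMod p) ℂ) (ψ φ : ZMod p → ℂ) (i u v : ZMod p) :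
    cd χ (fun j => ψ (j + i)) (fun j => φ (j + i)) u v = χ (v * i) * cd χ ψ φ u v := by
  unfold cd
  rw [Finset.mul_sum]
  refine Fintype.sum_equiv (Equiv.addRight i) _ _ fun j => ?_
  simp only [Equiv.coe_addRight]
  have h1 : χ (-(v * j)) = χ (v * i) * χ (-(v * (j + i))) := by
    rw [← AddChar.map_add_eq_mul]
    congr 1
    ring
  rw [h1, show j + u + i = j + i + u by ring]
  ring

theorem sol_shift {χ : AddChar (ZMod p) ℂ} {ψ φ : ZMod p → ℂ} (h : IsSol χ ψ φ) (i : ZMod p) :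
    IsSol χ (fun j => ψ (j + i)) (fun j => φ (j + i)) := by
  refine ⟨?_, fun u v huv => ?_⟩
  · rw [← h.one]
    exact Fintype.sum_equiv (Equiv.addRight i) _ _ fun j => rfl
  · rw [cc_shift, cd_shift]
    have h1 : χ (-(v * i)) * χ (v * i) = 1 := by
      rw [← AddChar.map_add_eq_mul, neg_add_cancel, AddChar.map_zero_eq_one]
    rw [← h.mul u v huv]
    linear_combination (cc χ ψ φ u v * cd χ ψ φ u v) * h1

theorem Dv_shift (χ : AddChar (ZMod p) ℂ) (ψ : ZMod p → ℂ) (i s r : ZMod p) :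
    Dv χ ψ s r = Dv χ (fun j => ψ (j + i)) (s + i) r := by
  ext j
  rw [Dv_apply, Dv_apply]
  congr 2
  ring

/-- permutation of the coordinates -/
noncomputable def Rm (a : ZMod p) (ha : a ≠ 0) :
    EuclideanSpace ℂ (ZMod p) ≃ₗᵢ[ℂ] EuclideanSpace ℂ (ZMod p) :=
  LinearIsometryEquiv.piLpCongrLeft 2 ℂ ℂ (Equiv.mulLeft₀ a ha)

theorem Rm_Dv {χ χ0 : AddChar (ZMod p) ℂ} {a : ZMod p} (ha : a ≠ 0)
    (hχ : ∀ j, χ j = χ0 (a * j)) (ψ : ZMod p → ℂ) (s r : ZMod p) :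
    Rm a ha (Dv χ ψ s r) = Dv χ0 (fun j => ψ (a⁻¹ * j)) (a * s) r := by
  ext j
  rw [Dv_apply]
  have h1 : Rm a ha (Dv χ ψ s r) j = Dv χ ψ s r (a⁻¹ * j) := by
    unfold Rm
    rw [LinearIsometryEquiv.piLpCongrLeft_apply]
    rfl
  rw [h1, Dv_apply, hχ, mul_sub, inv_mul_cancel_left₀ ha]
  congr 2
  rw [mul_left_comm, mul_inv_cancel_left₀ ha]

theorem norm_fid {V ι : Type*} [NormedAddCommGroup V] [InnerProductSpace ℂ V] [Fintype ι]
    [FiniteDimensional ℂ V] {x : ι → V}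
    {χ0 : AddChar (ZMod p) ℂ} (hχ0 : χ0 ≠ 1) (h : IsEtf p x) (hcard : Fintype.card ι = p ^ 2)
    (hV : Module.finrank ℂ V = p)
    (htr : ∀ i j, ∃ (U : V ≃ₗᵢ[ℂ] V) (π : Equiv.Perm ι), Ind x U π ∧ π i = j) :
    ∃ (ψ : ZMod p → ℂ) (T : V ≃ₗᵢ[ℂ] EuclideanSpace ℂ (ZMod p))
      (σ : ι → ZMod p × ZMod p), ψ 0 ≠ 0 ∧ IsSol χ0 ψ (cj ψ) ∧ Function.Bijective σ ∧
      ∀ k, ∃ c : ℂ, ‖c‖ = 1 ∧ T (x k) = c • Dv χ0 ψ (σ k).1 (σ k).2 := by
  classical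
  obtain ⟨χ, ψ, T, σ, hχ, hsol, hT⟩ := exists_fid h hcard hV htr
  obtain ⟨a, ha⟩ := exists_mulShift hχ0 χ
  have ha0 : a ≠ 0 := by
    rintro rfl
    apply hχ
    ext j
    rw [ha, zero_mul, AddChar.map_zero_eq_one, AddChar.one_apply]
  set ψ1 : ZMod p → ℂ := fun j => ψ (a⁻¹ * j) with hψ1
  have hsol1 : IsSol χ0 ψ1 (cj ψ1) := sol_dil ha0 ha hsol
  obtain ⟨i, hi⟩ : ∃ i, ψ1 i ≠ 0 := by
    by_contra hcon
    push Not at hcon
    have := hsol1.one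
    simp [hcon] at this
  have hsol2 : IsSol χ0 (fun j => ψ1 (j + i)) (cj fun j => ψ1 (j + i)) := sol_shift hsol1 i
  set σ2 : ι → ZMod p × ZMod p := fun k => (a * (σ k).1 + i, (σ k).2) with hσ2
  have hT2 : ∀ k, ∃ c : ℂ, ‖c‖ = 1 ∧ (T.trans (Rm a ha0)) (x k) =
      c • Dv χ0 (fun j => ψ1 (j + i)) (σ2 k).1 (σ2 k).2 := by
    intro k
    obtain ⟨c, hc, hc'⟩ := hT k
    refine ⟨c, hc, ?_⟩
    rw [LinearIsometryEquiv.trans_apply, hc', map_smul, Rm_Dv ha0 ha, Dv_shift χ0 _ i]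
  refine ⟨fun j => ψ1 (j + i), T.trans (Rm a ha0), σ2, by simpa using hi, hsol2, ?_, hT2⟩
  rw [Fintype.bijective_iff_injective_and_card]
  refine ⟨fun k l hkl => ?_, by rw [hcard, Fintype.card_prod, ZMod.card, sq]⟩
  obtain ⟨c, hc, hc'⟩ := hT2 k
  obtain ⟨d, hd, hd'⟩ := hT2 l
  rw [hkl] at hc'
  have hd0 : d ≠ 0 := by rintro rfl; simp at hd
  have h1 : x k = (c * d⁻¹) • x l := by
    apply (T.trans (Rm a ha0)).injective
    rw [map_smul, hc', hd', smul_smul, mul_assoc, inv_mul_cancel₀ hd0, mul_one]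
  exact h.line hp.out.one_lt.le h1

/-- the normalized solution attached to a fiducial vector -/
noncomputable def nz (ψ : ZMod p → ℂ) : (ZMod p → ℂ) × (ZMod p → ℂ) :=
  (fun j => ψ j / ψ 0, fun j => ψ 0 * cj ψ j)

theorem nz_mul {ψ : ZMod p → ℂ} (h0 : ψ 0 ≠ 0) (i j : ZMod p) :
    ψ i * cj ψ j = (nz ψ).1 i * (nz ψ).2 j := by
  unfold nz
  simp only
  field_simp

theorem nz_mem {χ : AddChar (ZMod p) ℂ} {ψ : ZMod p → ℂ} (h0 : ψ 0 ≠ 0)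
    (h : IsSol χ ψ (cj ψ)) : nz ψ ∈ Z χ :=
  ⟨div_self h0, isSol_congr (nz_mul h0) h⟩

end Run7.h53.BZ
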